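import Pool.Agent.Run7.h386.DL.MainD

/-!
# The sumset of a dense subset of a set closed under gcd and lcm, or of a set `X · {∏ s : s ⊆ P}`

The conjecture `|A + A| ≥ c |A| ^ (2 - ε)` (with the sumset alone) for all finite sets `A` of integers
of both signs which are dense (density `|A| ^ (-η)`, `η = η(ε, T) > 0`) in a host of one of two kinds:

* the integers `± a`, `a ∈ L`, for a finite set `L` of positive integers closed under gcd and lcm (all
  finite distributive lattices occur, the divisors of an integer are an example);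
* the products of an element of an arbitrary finite set `X` of integers and of the elements of
  a subset of a set `P` of pairwise coprime integers at least `2`, where `log |X| ≤ T |P| log 2`.

More generally, for sets `A_1, …, A_k` of this kind (with different hosts) and nonzero integers `l_i`
the sums `l_1 a_1 + … + l_k a_k + b` with `b` in an arbitrary finite set `B` have the expected number,
with a power dependence on the densities.

The proof is that of helper386's hand-in MP_120218_co.DenseGcdLcm (`Pool/Agent/Run7/h386`): mean energy of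
`(∏ s) X + B` over the subsets `s` of `P`, random sets of prime filters of a distributive lattice.
-/

set_option autoImplicit false

open scoped Pointwise

namespace Pool.Agent.Run7.h886.DL

/-- `L` is a finite set of positive integers closed under gcd and lcm. -/
structure GcdLcmClosed (L : Finset ℕ) : Prop where
  pos : ∀ a ∈ L, 0 < a
  gcd : ∀ a ∈ L, ∀ b ∈ L, Nat.gcd a b ∈ L
  lcm : ∀ a ∈ L, ∀ b ∈ L, Nat.lcm a b ∈ L

/-- The integers at least `2` in the finite set `P` are pairwise coprime. -/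
structure PairwiseCoprime (P : Finset ℕ) : Prop where
  two_le : ∀ p ∈ P, 2 ≤ p
  coprime : ∀ p ∈ P, ∀ p' ∈ P, p ≠ p' → Nat.Coprime p p'

/-- The finite set `A` of integers lies in a host of size `V`: either the absolute values of its
elements are in a set `L` closed under gcd and lcm, `V = |L|`; or its elements are products `x ∏ s` with
`x` in a set `X` of integers and `s` contained in a set `P` of pairwise coprime integers `≥ 2`,
`|X| ≤ 2 ^ (T |P|)`, `V = |X| 2 ^ |P|`. -/
def InHost (T : ℝ) (A : Finset ℤ) (V : ℝ) : Prop :=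
  (∃ L : Finset ℕ, GcdLcmClosed L ∧ (∀ z ∈ A, z.natAbs ∈ L) ∧ V = L.card) ∨
    ∃ (X : Finset ℤ) (P : Finset ℕ), PairwiseCoprime P ∧ (X.card : ℝ) ≤ 2 ^ (T * P.card) ∧
      (∀ z ∈ A, ∃ x ∈ X, ∃ s ⊆ P, z = x * ((∏ p ∈ s, p : ℕ) : ℤ)) ∧ V = X.card * 2 ^ P.card

open Pool.Agent.Run7.h386.DL Pool.Agent.Run7.h386.GL

theorem host_part {T : ℝ} {A : Finset ℤ} {V : ℝ} (h : InHost T A V) (hA : A.Nonempty) :
    ∃ (e : ℤ) (S : Finset ℤ), e ≠ 0 ∧ (∀ a ∈ S, e * a ∈ A) ∧ Ty T S V ∧
      A.card ≤ 2 * S.card := by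
  rcases h with ⟨L, hL, hz, hV⟩ | ⟨X, P, hP, hX, hz, hV⟩
  · have hlat : Lat L := ⟨fun a ha => (hL.pos a ha).ne', hL.gcd, hL.lcm⟩
    have hne : ∀ z ∈ A, z ≠ 0 := by
      intro z h0 h1
      have := hL.pos _ (hz z h0)
      rw [h1] at this
      simp at this
    -- a sign with many elements
    have key : ∀ e : ℤ, (e = 1 ∨ e = -1) → A.card ≤ 2 * (A.filter fun z => 0 < e * z).card →
        ∃ (e : ℤ) (S : Finset ℤ), e ≠ 0 ∧ (∀ a ∈ S, e * a ∈ A) ∧ Ty T S V ∧
          A.card ≤ 2 * S.card := by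
      intro e he hc
      have hee : e * e = 1 := by rcases he with rfl | rfl <;> norm_num
      have he0 : e ≠ 0 := by rcases he with rfl | rfl <;> norm_num
      set S0 := A.filter fun z => 0 < e * z with hS0
      set As : Finset ℕ := S0.image Int.natAbs with hAs
      have habs : ∀ z ∈ S0, ((z.natAbs : ℕ) : ℤ) = e * z := by
        intro z hz0
        have h1 : 0 < e * z := (Finset.mem_filter.1 hz0).2
        have h2 : |z| = |e * z| := by
          rw [abs_mul]
          rcases he with rfl | rfl <;> simp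
        rw [Int.natCast_natAbs, h2, abs_of_pos h1]
      have hinj : Set.InjOn Int.natAbs (S0 : Set ℤ) := by
        intro z h1 w h2 h3
        have h4 := habs z h1
        have h5 := habs w h2
        rw [h3, h5] at h4
        exact (mul_left_cancel₀ he0 h4).symm
      have hcard : As.card = S0.card := Finset.card_image_of_injOn hinj
      have hS0ne : S0.Nonempty := by
        rw [Finset.nonempty_iff_ne_empty]
        intro h0
        rw [h0, Finset.card_empty] at hc
        have := hA.card_pos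
        omega
      refine ⟨e, ic As, he0, ?_, ⟨ic_nonempty (hS0ne.image _), Or.inl ⟨L, As, hlat, ?_, rfl, hV⟩⟩, ?_⟩
      · intro a ha
        obtain ⟨n, hn, rfl⟩ := Finset.mem_image.1 ha
        obtain ⟨z, hz0, rfl⟩ := Finset.mem_image.1 hn
        rw [habs z hz0, ← mul_assoc, hee, one_mul]
        exact (Finset.mem_filter.1 hz0).1
      · intro n hn
        obtain ⟨z, hz0, rfl⟩ := Finset.mem_image.1 hn
        exact hz z (Finset.mem_filter.1 hz0).1
      · rw [ic_card, hcard]
        exact hc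
    have hsplit : A.card ≤ (A.filter fun z => 0 < (1 : ℤ) * z).card +
        (A.filter fun z => 0 < (-1 : ℤ) * z).card := by
      refine le_trans (Finset.card_le_card ?_) (Finset.card_union_le _ _)
      intro z hz0
      rw [Finset.mem_union, Finset.mem_filter, Finset.mem_filter]
      rcases lt_or_gt_of_ne (hne z hz0) with h1 | h1
      · right
        exact ⟨hz0, by linarith⟩
      · left
        exact ⟨hz0, by linarith⟩
    rcases le_total (A.filter fun z => 0 < (1 : ℤ) * z).card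
      (A.filter fun z => 0 < (-1 : ℤ) * z).card with h1 | h1
    · exact key (-1) (Or.inr rfl) (by omega)
    · exact key 1 (Or.inl rfl) (by omega)
  · refine ⟨1, A, one_ne_zero, fun a ha => by rwa [one_mul], ⟨hA, Or.inr ⟨X, P, ?_, ⟨hP.two_le,
      hP.coprime⟩, hX, ?_, hV⟩⟩, by omega⟩
    · obtain ⟨z, hz0⟩ := hA
      obtain ⟨x, hx, _⟩ := hz z hz0
      exact ⟨x, hx⟩
    · intro z hz0
      obtain ⟨x, hx, s, hs, rfl⟩ := hz z hz0
      exact ⟨x, hx, s, hs, by unfold pd; rw [mul_comm]⟩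

theorem forms (T ε : ℝ) (hT : 0 ≤ T) (hε : 0 < ε) (hε1 : ε ≤ 1) (k : ℕ) :
    ∃ C c : ℝ, 1 ≤ C ∧ 0 < c ∧ ∀ (A : Fin k → Finset ℤ) (V : Fin k → ℝ) (l : Fin k → ℤ)
      (B : Finset ℤ), (∀ i, (A i).Nonempty ∧ InHost T (A i) (V i)) → (∀ i, l i ≠ 0) →
        B.Nonempty →
        c * (B.card : ℝ) ^ (1 - ε) * ∏ i, (V i) ^ (1 - ε) * ((A i).card / V i) ^ C ≤
          ((((Fintype.piFinset A).image fun f => ∑ i, l i * f i) + B).card : ℝ) := by
  obtain ⟨C, c, hC, hc, h⟩ := kfoldD T hT k ε hε hε1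
  refine ⟨max C 1, c * (2 ^ (max C 1))⁻¹ ^ k, le_max_right _ _, by positivity, ?_⟩
  intro A V l B hA hl hB
  choose e S he hS hTy hcard using fun i => host_part (hA i).2 (hA i).1
  have h1 := h S V (fun i => l i * e i) hTy (fun i => mul_ne_zero (hl i) (he i)) B hB
  have hsub : smz k S (fun i => l i * e i) + B ⊆
      ((Fintype.piFinset A).image fun f => ∑ i, l i * f i) + B := by
    refine Finset.add_subset_add_right ?_
    intro z hz
    obtain ⟨f, hf, rfl⟩ := Finset.mem_image.1 hz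
    rw [Fintype.mem_piFinset] at hf
    refine Finset.mem_image.2 ⟨fun i => e i * f i, ?_, ?_⟩
    · rw [Fintype.mem_piFinset]
      exact fun i => hS i _ (hf i)
    · exact Finset.sum_congr rfl fun i _ => by ring
  have h2 : ((smz k S (fun i => l i * e i) + B).card : ℝ) ≤
      ((((Fintype.piFinset A).image fun f => ∑ i, l i * f i) + B).card : ℝ) := by
    exact_mod_cast Finset.card_le_card hsub
  refine le_trans ?_ (h1.trans h2)
  have hV1 : ∀ i, 1 ≤ V i := fun i => (hTy i).one_le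
  have hV0 : ∀ i, 0 < V i := fun i => by linarith [hV1 i]
  have hS0 : ∀ i, (0 : ℝ) < (S i).card := fun i => by exact_mod_cast (hTy i).1.card_pos
  have hfac : ∀ i, (2 ^ (max C 1))⁻¹ * ((V i) ^ (1 - ε) * ((A i).card / V i) ^ (max C 1)) ≤
      (V i) ^ (1 - ε) * ((S i).card / V i) ^ C := by
    intro i
    have hr1 : ((S i).card : ℝ) / V i ≤ 1 := by rw [div_le_one (hV0 i)]; exact (hTy i).card_le
    have hr0 : 0 < ((S i).card : ℝ) / V i := div_pos (hS0 i) (hV0 i)
    have h3 : (((S i).card : ℝ) / V i) ^ (max C 1) ≤ (((S i).card : ℝ) / V i) ^ C :=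
      Real.rpow_le_rpow_of_exponent_ge hr0 hr1 (le_max_left _ _)
    have h4 : ((A i).card : ℝ) ≤ 2 * (S i).card := by exact_mod_cast hcard i
    have h5 : ((A i).card : ℝ) / V i ≤ 2 * (((S i).card : ℝ) / V i) := by
      rw [← mul_div_assoc]
      exact div_le_div_of_nonneg_right h4 (hV0 i).le
    have h6 : (((A i).card : ℝ) / V i) ^ (max C 1) ≤
        2 ^ (max C 1) * (((S i).card : ℝ) / V i) ^ (max C 1) := by
      rw [← Real.mul_rpow (by norm_num) hr0.le]
      exact Real.rpow_le_rpow (div_nonneg (Nat.cast_nonneg _) (hV0 i).le) h5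
        (by positivity)
    have h2p : (0 : ℝ) < 2 ^ (max C 1) := Real.rpow_pos_of_pos (by norm_num) _
    have hVp : 0 ≤ (V i) ^ (1 - ε) := Real.rpow_nonneg (hV0 i).le _
    calc (2 ^ (max C 1))⁻¹ * ((V i) ^ (1 - ε) * ((A i).card / V i) ^ (max C 1)) =
          (V i) ^ (1 - ε) * ((2 ^ (max C 1))⁻¹ * ((A i).card / V i) ^ (max C 1)) := by ring
      _ ≤ (V i) ^ (1 - ε) * ((2 ^ (max C 1))⁻¹ *
            (2 ^ (max C 1) * (((S i).card : ℝ) / V i) ^ (max C 1))) := by
          refine mul_le_mul_of_nonneg_left (mul_le_mul_of_nonneg_left h6 (by positivity)) hVp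
      _ = (V i) ^ (1 - ε) * (((S i).card : ℝ) / V i) ^ (max C 1) := by
          rw [← mul_assoc (2 ^ (max C 1))⁻¹, inv_mul_cancel₀ h2p.ne', one_mul]
      _ ≤ _ := mul_le_mul_of_nonneg_left h3 hVp
  have hprod : ((2 ^ (max C 1))⁻¹ : ℝ) ^ k *
      ∏ i, (V i) ^ (1 - ε) * ((A i).card / V i) ^ (max C 1) ≤
      ∏ i, (V i) ^ (1 - ε) * ((S i).card / V i) ^ C := by
    have h7 : ((2 ^ (max C 1))⁻¹ : ℝ) ^ k = ∏ _i : Fin k, ((2 ^ (max C 1))⁻¹ : ℝ) := by simp
    rw [h7, ← Finset.prod_mul_distrib]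
    refine Finset.prod_le_prod (fun i _ => ?_) fun i _ => hfac i
    have := hV0 i
    positivity
  calc c * (2 ^ (max C 1))⁻¹ ^ k * (B.card : ℝ) ^ (1 - ε) *
        ∏ i, (V i) ^ (1 - ε) * ((A i).card / V i) ^ (max C 1) =
      c * ((2 ^ (max C 1))⁻¹ ^ k * ∏ i, (V i) ^ (1 - ε) * ((A i).card / V i) ^ (max C 1)) *
        (B.card : ℝ) ^ (1 - ε) := by ring
    _ ≤ c * (∏ i, (V i) ^ (1 - ε) * ((S i).card / V i) ^ C) * (B.card : ℝ) ^ (1 - ε) := by
        refine mul_le_mul_of_nonneg_right (mul_le_mul_of_nonneg_left hprod hc.le) (by positivity)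

/-- (1) For all `T ≥ 0` and `0 < ε ≤ 1` there are `η, c > 0` such that `|sA + tA| ≥ c |A| ^ (2 - ε)`, in
particular `|A + A| ≥ c |A| ^ (2 - ε)`, for all nonzero integers `s`, `t` and all finite nonempty sets
`A` of integers which lie in a host of size `V ≤ |A| ^ (1 + η)`. (2) For sets `A_i` in hosts of size
`V_i`, nonzero integers `l_i` and an arbitrary finite nonempty set `B` of integers:
`|l_1 A_1 + … + l_k A_k + B| ≥ c |B| ^ (1 - ε) ∏ V_i ^ (1 - ε) (|A_i| / V_i) ^ C`. -/
theorem result (T ε : ℝ) (hT : 0 ≤ T) (hε : 0 < ε) (hε1 : ε ≤ 1) :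
    (∃ η c : ℝ, 0 < η ∧ 0 < c ∧ ∀ (A : Finset ℤ) (V : ℝ), A.Nonempty → InHost T A V →
      V ≤ (A.card : ℝ) ^ (1 + η) → ∀ s t : ℤ, s ≠ 0 → t ≠ 0 →
        c * (A.card : ℝ) ^ (2 - ε) ≤ (((A.image fun a => s * a) + A.image fun a => t * a).card : ℝ)) ∧
    ∀ k : ℕ, ∃ C c : ℝ, 1 ≤ C ∧ 0 < c ∧ ∀ (A : Fin k → Finset ℤ) (V : Fin k → ℝ)
      (l : Fin k → ℤ) (B : Finset ℤ), (∀ i, (A i).Nonempty ∧ InHost T (A i) (V i)) →
        (∀ i, l i ≠ 0) → B.Nonempty →
        c * (B.card : ℝ) ^ (1 - ε) * ∏ i, (V i) ^ (1 - ε) * ((A i).card / V i) ^ C ≤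
          ((((Fintype.piFinset A).image fun f => ∑ i, l i * f i) + B).card : ℝ) := by
  refine ⟨?_, forms T ε hT hε hε1⟩
  obtain ⟨C, c, hC, hc, h⟩ := forms T (ε / 4) hT (by linarith) (by linarith) 2
  have hC0 : 0 < C := by linarith
  refine ⟨ε / 4 / C, c, by positivity, hc, ?_⟩
  intro A V hA hV hVA s t hs ht
  have h1 := h ![A, A] ![V, V] ![s, t] {0}
    (fun i => by fin_cases i <;> exact ⟨hA, hV⟩)
    (fun i => by fin_cases i <;> simpa using by assumption) (Finset.singleton_nonempty 0)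
  have hV1 : 1 ≤ V := by
    obtain ⟨_, _, _, _, hTy, _⟩ := host_part hV hA
    exact hTy.one_le
  have hV0 : 0 < V := by linarith
  have hn1 : (1 : ℝ) ≤ A.card := by exact_mod_cast hA.card_pos
  have hn0 : (0 : ℝ) < A.card := by linarith
  have hsets : (((Fintype.piFinset ![A, A]).image fun f => ∑ i, (![s, t] : Fin 2 → ℤ) i * f i) +
      ({0} : Finset ℤ)) ⊆ (A.image fun a => s * a) + A.image fun a => t * a := by
    intro z hz
    obtain ⟨y, hy, w, hw, rfl⟩ := Finset.mem_add.1 hz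
    rw [Finset.mem_singleton] at hw
    obtain ⟨f, hf, rfl⟩ := Finset.mem_image.1 hy
    rw [Fintype.mem_piFinset] at hf
    rw [hw, add_zero, Fin.sum_univ_two]
    have e0 := hf 0
    have e1 := hf 1
    simp only [Matrix.cons_val_zero, Matrix.cons_val_one] at e0 e1 ⊢
    exact Finset.add_mem_add (Finset.mem_image_of_mem _ e0) (Finset.mem_image_of_mem _ e1)
  have h2 : (((((Fintype.piFinset ![A, A]).image fun f =>
      ∑ i, (![s, t] : Fin 2 → ℤ) i * f i) + ({0} : Finset ℤ)).card : ℕ) : ℝ) ≤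
      (((A.image fun a => s * a) + A.image fun a => t * a).card : ℝ) := by
    exact_mod_cast Finset.card_le_card hsets
  refine le_trans ?_ (h1.trans h2)
  rw [Finset.card_singleton, Nat.cast_one, Real.one_rpow, mul_one, Fin.prod_univ_two]
  simp only [Matrix.cons_val_zero, Matrix.cons_val_one]
  refine mul_le_mul_of_nonneg_left ?_ hc.le
  have h3 : (A.card : ℝ) ^ (1 - ε / 2) ≤ V ^ (1 - ε / 4) * ((A.card : ℝ) / V) ^ C := by
    have e1 : V ^ (1 - ε / 4) * ((A.card : ℝ) / V) ^ C =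
        (A.card : ℝ) ^ C * V ^ (1 - ε / 4 - C) := by
      rw [Real.div_rpow hn0.le hV0.le, Real.rpow_sub hV0 (1 - ε / 4) C]
      ring
    rw [e1]
    have e2 : ((A.card : ℝ) ^ (1 + ε / 4 / C)) ^ (1 - ε / 4 - C) ≤ V ^ (1 - ε / 4 - C) :=
      Real.rpow_le_rpow_of_nonpos hV0 hVA (by linarith)
    refine le_trans ?_ (mul_le_mul_of_nonneg_left e2 (Real.rpow_nonneg hn0.le _))
    rw [← Real.rpow_mul hn0.le, ← Real.rpow_add hn0]
    refine Real.rpow_le_rpow_of_exponent_le hn1 ?_
    have e3 : ε / 4 / C * C = ε / 4 := div_mul_cancel₀ _ hC0.ne'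
    have e4 : 0 ≤ ε / 4 / C * (1 - ε / 4) := mul_nonneg (by positivity) (by linarith)
    nlinarith
  have h4 : (A.card : ℝ) ^ (2 - ε) = (A.card : ℝ) ^ (1 - ε / 2) * (A.card : ℝ) ^ (1 - ε / 2) := by
    rw [← Real.rpow_add hn0]
    congr 1
    ring
  rw [h4]
  exact mul_le_mul h3 h3 (Real.rpow_nonneg hn0.le _) ((Real.rpow_nonneg hn0.le _).trans h3)

end Pool.Agent.Run7.h886.DL
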